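import Pool.Agent.Q309.MG.Defs
import Pool.Agent.Q309.SFT.Main

/-!
# Cohen forcing destroys all strategies of player II on the Cantor space
-/

set_option autoImplicit false
set_option linter.unusedSectionVars false

namespace Pool.Agent.Q309.MG

open Pool.Agent.Helper669.Forcing Pool.Agent.Q309.SFT

universe u v w

/-! ### General lemmas -/

section general

variable {P : Type u} [Preorder P] {S : Type v} {T : Type w}

theorem down_SameN (A B : S → Set P) : Down (SameN P A B) :=
  down_fall fun _ => down_fand (down_fimp _ _) (down_fimp _ _)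

theorem down_SameL (L L' : List (S → Set P)) : Down (SameL P L L') :=
  down_fand (down_fground _) (down_fall fun _ => down_SameN _ _)

theorem SameN.iff {A B : S → Set P} {p : P} (h : p ∈ SameN P A B) (a : S) :
    p ∈ meets (A a) ↔ p ∈ meets (B a) :=
  ⟨mp (reg_meets _) (down_meets _) (h a).1, mp (reg_meets _) (down_meets _) (h a).2⟩

theorem sameN_of {A B : S → Set P} {p : P}
    (h : ∀ q ≤ p, ∀ a, q ∈ meets (A a) ↔ q ∈ meets (B a)) : p ∈ SameN P A B :=
  fun a => ⟨mem_fimp.2 fun q hq hq' => ⟨q, le_rfl, (h q hq a).1 hq'⟩,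
    mem_fimp.2 fun q hq hq' => ⟨q, le_rfl, (h q hq a).2 hq'⟩⟩

theorem sameN_refl (A : S → Set P) (p : P) : p ∈ SameN P A A := sameN_of fun _ _ _ => Iff.rfl

theorem sameN_symm {A B : S → Set P} {p : P} (h : p ∈ SameN P A B) : p ∈ SameN P B A :=
  fun a => ⟨(h a).2, (h a).1⟩

theorem sameL_nil (p : P) : p ∈ SameL P ([] : List (S → Set P)) [] :=
  ⟨rfl, fun _ => sameN_refl _ _⟩

theorem sameL_refl (L : List (S → Set P)) (p : P) : p ∈ SameL P L L :=
  ⟨rfl, fun _ => sameN_refl _ _⟩

theorem sameL_append {L L' : List (S → Set P)} {A A' : S → Set P} {p : P}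
    (h : p ∈ SameL P L L') (hA : p ∈ SameN P A A') : p ∈ SameL P (L ++ [A]) (L' ++ [A']) := by
  obtain ⟨h1, h2⟩ := h
  have h1 : L.length = L'.length := h1
  refine ⟨?_, fun i => ?_⟩
  · change (L ++ [A]).length = (L' ++ [A']).length
    rw [List.length_append, List.length_append, h1]
    rfl
  · rcases lt_trichotomy i L.length with hi | hi | hi
    · have h3 := h2 i
      change p ∈ SameN P ((L ++ [A]).getD i fun _ => ∅) ((L' ++ [A']).getD i fun _ => ∅)
      rw [List.getD_append _ _ _ _ hi, List.getD_append _ _ _ _ (h1 ▸ hi)]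
      exact h3
    · subst hi
      change p ∈ SameN P ((L ++ [A]).getD L.length fun _ => ∅)
        ((L' ++ [A']).getD L.length fun _ => ∅)
      have e1 : (L ++ [A]).getD L.length (fun _ => ∅) = A := by simp
      have e2 : (L' ++ [A']).getD L.length (fun _ => ∅) = A' := by rw [h1]; simp
      rw [e1, e2]
      exact hA
    · change p ∈ SameN P ((L ++ [A]).getD i fun _ => ∅) ((L' ++ [A']).getD i fun _ => ∅)
      rw [List.getD_eq_default _ _ (by simp; omega), List.getD_eq_default _ _ (by simp; omega)]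
      exact sameN_refl _ _

/-- The mixing lemma. -/
theorem mixing (φ : (S → Set P) → Set P) (hφ : ∀ C, Down (φ C)) (p : P)
    (h : ∀ q ≤ p, ∃ r ≤ q, ∃ C, r ∈ φ C) :
    ∃ D : S → Set P, ∀ q ≤ p, ∃ r ≤ q, ∃ C, r ∈ φ C ∧ r ∈ SameN P D C := by
  classical
  -- a maximal antichain
  let W : Set P := {r | r ≤ p ∧ ∃ C, r ∈ φ C}
  obtain ⟨A, hA⟩ : ∃ A : Set P, Maximal (fun A : Set P => A ⊆ W ∧
      ∀ a ∈ A, ∀ b ∈ A, (∃ t, t ≤ a ∧ t ≤ b) → a = b) A := by
    refine zorn_subset {A : Set P | A ⊆ W ∧ ∀ a ∈ A, ∀ b ∈ A, (∃ t, t ≤ a ∧ t ≤ b) → a = b} ?_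
    intro c hc hchain
    refine ⟨⋃₀ c, ⟨Set.sUnion_subset fun a ha => (hc ha).1, ?_⟩,
      fun s hs => Set.subset_sUnion_of_mem hs⟩
    rintro a ⟨s, hs, has⟩ b ⟨t, ht, hbt⟩ hab
    rcases hchain.total hs ht with h1 | h1
    · exact (hc ht).2 a (h1 has) b hbt hab
    · exact (hc hs).2 a has b (h1 hbt) hab
  have hAW : A ⊆ W := hA.prop.1
  have hAanti := hA.prop.2
  have hAmax : ∀ r ∈ W, ∃ a ∈ A, ∃ t, t ≤ a ∧ t ≤ r := by
    intro r hr
    by_contra hcon
    push Not at hcon
    have h1 : insert r A ⊆ A := hA.le_of_ge ⟨Set.insert_subset hr hAW, by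
      rintro a (rfl | ha) b (rfl | hb) ⟨t, ht1, ht2⟩
      · rfl
      · exact absurd ht1 (hcon b hb t ht2)
      · exact absurd ht2 (hcon a ha t ht1)
      · exact hAanti a ha b hb ⟨t, ht1, ht2⟩⟩ (Set.subset_insert _ _)
    exact hcon r (h1 (Set.mem_insert _ _)) r le_rfl le_rfl
  have hch : ∀ r : P, ∃ C : S → Set P, r ∈ A → r ∈ φ C := by
    intro r
    by_cases hr : r ∈ A
    · obtain ⟨-, C, hC⟩ := hAW hr
      exact ⟨C, fun _ => hC⟩
    · exact ⟨fun _ => ∅, fun h => absurd h hr⟩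
  choose c hc using hch
  refine ⟨fun i => {s | ∃ r ∈ A, s ≤ r ∧ s ∈ meets (c r i)}, fun q hq => ?_⟩
  obtain ⟨r, hr, C, hC⟩ := h q hq
  obtain ⟨a, ha, t, hta, htr⟩ := hAmax r ⟨hr.trans hq, C, hC⟩
  refine ⟨t, htr.trans hr, c a, hφ _ _ (hc a ha) _ hta, sameN_of fun s hs i => ?_⟩
  constructor
  · intro hs'
    refine reg_meets _ _ fun s' hs1 => ?_
    obtain ⟨s2, hs2, u, ⟨b, hb, hub, hub'⟩, hsu⟩ := hs' s' hs1
    have hab : a = b := hAanti a ha b hb ⟨s2, (hs2.trans hs1).trans (hs.trans hta), hsu.trans hub⟩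
    rw [hab]
    exact ⟨s2, hs2, down_meets _ _ hub' _ hsu⟩
  · intro hs'
    exact meets_of_mem ⟨a, ha, hs.trans hta, hs'⟩

end general

/-! ### Cylinders -/

/-- The cylinder of a finite sequence. -/
def cyl (t : List Bool) : Set Cantor := {y | init y t.length = t}

theorem mem_cyl {t : List Bool} {y : Cantor} : y ∈ cyl t ↔ init y t.length = t := Iff.rfl

theorem mem_cyl_init (y : Cantor) (n : ℕ) : y ∈ cyl (init y n) := by
  rw [mem_cyl, length_init]

theorem init_eq_init {y z : Cantor} {n : ℕ} (h : init y n = init z n) (k : ℕ) (hk : k < n) :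
    y k = z k := by
  have h1 : (init y n)[k]? = (init z n)[k]? := by rw [h]
  simpa [init, hk] using h1

theorem init_prefix (y : Cantor) {m n : ℕ} (h : m ≤ n) : init y m <+: init y n := by
  induction n, h using Nat.le_induction with
  | base => exact List.prefix_rfl
  | succ n _ ih =>
    rw [init_succ]
    exact ih.trans (List.prefix_append _ _)

theorem cyl_anti {t s : List Bool} (h : t <+: s) : cyl s ⊆ cyl t := by
  intro y hy
  rw [mem_cyl] at hy ⊢
  obtain ⟨u, rfl⟩ := h
  have h1 : init y t.length <+: init y (t ++ u).length := by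
    refine init_prefix y ?_
    rw [List.length_append]
    omega
  rw [hy] at h1
  refine List.IsPrefix.eq_of_length ?_ (length_init _ _)
  exact List.prefix_of_prefix_length_le h1 ⟨u, rfl⟩ (by rw [length_init])

theorem cyl_eq_inter (t : List Bool) : cyl t = ⋂ i : Fin t.length, {y | y i = t[i]} := by
  ext y
  rw [mem_cyl, Set.mem_iInter]
  constructor
  · intro h i
    have h1 : (init y t.length)[(i : ℕ)]? = t[(i : ℕ)]? := by rw [h]
    have hi := i.2
    simpa [init, hi] using h1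
  · intro h
    refine List.ext_getElem (length_init _ _) fun i hi hi' => ?_
    have := h ⟨i, hi'⟩
    simpa [init] using this

theorem isClopen_cyl (t : List Bool) : IsClopen (cyl t) := by
  rw [cyl_eq_inter]
  refine isClopen_iInter_of_finite fun i => ?_
  have h1 : {y : Cantor | y i = t[i]} = (fun y : Cantor => y i) ⁻¹' {t[i]} := rfl
  rw [h1]
  exact (isClopen_discrete _).preimage (continuous_apply _)

theorem exists_cyl {U : Set Cantor} (hU : IsOpen U) {y : Cantor} (hy : y ∈ U) :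
    ∃ n, ∀ m, n ≤ m → cyl (init y m) ⊆ U := by
  obtain ⟨I, u, hu, hIU⟩ := isOpen_pi_iff.1 hU y hy
  refine ⟨I.sup id + 1, fun m hm => ?_⟩
  intro z hz
  refine hIU fun i hi => ?_
  have h1 : z i = y i := by
    rw [mem_cyl, length_init] at hz
    exact init_eq_init hz i (by
      have := Finset.le_sup (f := id) (Finset.mem_coe.1 hi)
      change i ≤ _ at this
      omega)
  rw [h1]
  exact (hu i hi).2

theorem cyl_nonempty (t : List Bool) : (cyl t).Nonempty := by
  refine ⟨fun i => t.getD i false, ?_⟩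
  rw [mem_cyl]
  refine List.ext_getElem (length_init _ _) fun i hi hi' => ?_
  simp only [init, List.getElem_map, List.getElem_range]
  exact List.getD_eq_getElem _ _ hi'

/-- Two different points in a cylinder. -/
theorem cyl_two (t : List Bool) : ∃ y ∈ cyl t, ∃ z ∈ cyl t, y ≠ z := by
  obtain ⟨y, hy⟩ := cyl_nonempty (t ++ [true])
  obtain ⟨z, hz⟩ := cyl_nonempty (t ++ [false])
  refine ⟨y, cyl_anti ⟨[true], rfl⟩ hy, z, cyl_anti ⟨[false], rfl⟩ hz, ?_⟩
  rintro rfl
  rw [mem_cyl] at hy hz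
  rw [List.length_append] at hy hz
  change init y (t.length + 1) = _ at hy
  change init y (t.length + 1) = _ at hz
  rw [hy] at hz
  simp at hz

theorem prefix_of_mem_cyl {t : List Bool} {y : Cantor} (hy : y ∈ cyl t) {n : ℕ}
    (hn : t.length ≤ n) : t <+: init y n := by
  have h1 := init_prefix y hn
  rwa [mem_cyl.1 hy] at h1

/-! ### New reals and their covers -/

/-- The continuous injections of the Cantor space; each of them names a new real, the image of
the Cohen real. -/
abbrev CI : Type := {f : Cantor → Cantor // Continuous f ∧ Function.Injective f}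

/-- A name for the family of the complements of the cylinders around the new real. -/
def cov (f : CI) : Set Cantor → Set Coh :=
  fun U => {p | ∃ t : List Bool, U = (cyl t)ᶜ ∧ f.1 '' cyl p ⊆ cyl t}

theorem coh_le {p q : Coh} : q ≤ p ↔ List.IsPrefix (α := Bool) p q := Iff.rfl

theorem down_cov (f : CI) (U : Set Cantor) : Down (cov f U) := by
  rintro p ⟨t, rfl, ht⟩ q hq
  exact ⟨t, rfl, (Set.image_mono (cyl_anti hq)).trans ht⟩

/-- Finite sequences as conditions. -/
def toCoh (l : List Bool) : Coh := l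

theorem init_le {p : Coh} {y : Cantor} (hy : y ∈ cyl p) {n : ℕ}
    (hn : List.length (α := Bool) p ≤ n) : toCoh (init y n) ≤ p := prefix_of_mem_cyl hy hn

theorem cov_cover (f : CI) (p : Coh) (x : Cantor) :
    ∃ r ≤ p, ∃ U : Set Cantor, r ∈ cov f U ∧ x ∈ U := by
  obtain ⟨y, hy, hyx⟩ : ∃ y ∈ cyl p, f.1 y ≠ x := by
    obtain ⟨y, hy, z, hz, hyz⟩ := cyl_two p
    by_cases h : f.1 y = x
    · exact ⟨z, hz, fun h' => hyz (f.2.2 (h.trans h'.symm))⟩
    · exact ⟨y, hy, h⟩
  obtain ⟨k, hk⟩ : ∃ k, f.1 y k ≠ x k := by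
    by_contra hcon
    push Not at hcon
    exact hyx (funext hcon)
  let t := init (f.1 y) (k + 1)
  have hopen : IsOpen (f.1 ⁻¹' cyl t) := (isClopen_cyl t).isOpen.preimage f.2.1
  obtain ⟨n, hn⟩ := exists_cyl hopen (mem_cyl_init (f.1 y) (k + 1))
  refine ⟨toCoh (init y (max n (List.length (α := Bool) p))), init_le hy (le_max_right _ _),
    (cyl t)ᶜ, ⟨t, rfl, ?_⟩, fun hx => ?_⟩
  · rintro _ ⟨z, hz, rfl⟩
    exact hn _ (le_max_left _ _) hz
  · rw [mem_cyl, length_init] at hx
    exact hk (init_eq_init hx k (by omega)).symm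

theorem cov_open (f : CI) (p : Coh) : p ∈ FOpen Coh Cantor (cov f) := by
  intro U
  refine mem_fimp.2 fun q _ hq => ?_
  obtain ⟨r, hr, t, rfl, _⟩ := exists_of_meets (down_cov f U) hq
  exact ⟨r, hr, (isClopen_cyl t).compl.isOpen⟩

theorem cov_FCov (f : CI) (p : Coh) : p ∈ FCov Coh Cantor (cov f) := by
  refine ⟨cov_open f p, fun x => mem_fex.2 fun q _ => ?_⟩
  obtain ⟨r, hr, U, hU, hx⟩ := cov_cover f q x
  exact ⟨r, hr, U, meets_of_mem hU, hx⟩

/-- Finitely many members of the family have a common witness. -/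
theorem cov_finite (f : CI) (F : Finset (Set Cantor)) (p : Coh)
    (h : ∀ U ∈ F, p ∈ meets (cov f U)) : ∃ q ≤ p, ∀ U ∈ F, q ∈ cov f U := by
  classical
  induction F using Finset.induction_on with
  | empty => exact ⟨p, le_rfl, fun U hU => absurd hU (Finset.notMem_empty U)⟩
  | insert U F _ ih =>
    obtain ⟨q, hq, hq'⟩ := ih fun V hV => h V (Finset.mem_insert_of_mem hV)
    obtain ⟨r, hr, hr'⟩ := exists_of_meets (down_cov f U)
      (down_meets _ _ (h U (Finset.mem_insert_self _ _)) _ hq)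
    refine ⟨r, hr.trans hq, fun V hV => ?_⟩
    rcases Finset.mem_insert.1 hV with rfl | hV
    · exact hr'
    · exact down_cov f V _ (hq' V hV) _ hr

/-- Finitely many members of the family have an upper bound in the family. -/
theorem cov_bound (f : CI) (F : Finset (Set Cantor)) (q : Coh) (h : ∀ U ∈ F, q ∈ cov f U) :
    ∃ V, q ∈ cov f V ∧ ∀ U ∈ F, U ⊆ V := by
  classical
  induction F using Finset.induction_on with
  | empty =>
    refine ⟨(cyl [])ᶜ, ⟨[], rfl, fun y _ => ?_⟩, fun U hU => absurd hU (Finset.notMem_empty U)⟩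
    rw [mem_cyl]
    rfl
  | insert U F _ ih =>
    obtain ⟨V, ⟨t, rfl, ht⟩, hV⟩ := ih fun V hV => h V (Finset.mem_insert_of_mem hV)
    obtain ⟨s, rfl, hs⟩ := h U (Finset.mem_insert_self _ _)
    obtain ⟨y, hy⟩ := cyl_nonempty q
    have hyt := ht ⟨y, hy, rfl⟩
    have hys := hs ⟨y, hy, rfl⟩
    rcases le_total s.length t.length with hle | hle
    · refine ⟨(cyl t)ᶜ, ⟨t, rfl, ht⟩, fun U hU => ?_⟩
      rcases Finset.mem_insert.1 hU with rfl | hU
      · refine Set.compl_subset_compl.2 (cyl_anti ?_)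
        have := prefix_of_mem_cyl hys hle
        rwa [mem_cyl.1 hyt] at this
      · exact hV U hU
    · refine ⟨(cyl s)ᶜ, ⟨s, rfl, hs⟩, fun U hU => ?_⟩
      rcases Finset.mem_insert.1 hU with rfl | hU
      · exact subset_rfl
      · refine (hV U hU).trans (Set.compl_subset_compl.2 (cyl_anti ?_))
        have := prefix_of_mem_cyl hyt hle
        rwa [mem_cyl.1 hys] at this

theorem cov_FKCov (f : CI) (p : Coh) : p ∈ FKCov Coh Cantor (cov f) := by
  refine ⟨cov_open f p, fun K => mem_fimp.2 fun q _ hK => ?_⟩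
  obtain ⟨r, hr, hr'⟩ := mem_fimp.1 (hK (cov f)) q le_rfl
    ⟨cov_open f q, fun x => mem_fimp.2 fun s _ _ => ⟨s, le_rfl, (cov_FCov f s).2 x⟩⟩
  obtain ⟨r', hr1, F, hF1, hF2⟩ := mem_fex.1 hr' r le_rfl
  obtain ⟨r'', hr2, hF3⟩ := cov_finite f F r' fun U hU => hF1 U hU
  obtain ⟨V, hV1, hV2⟩ := cov_bound f F r'' hF3
  refine ⟨r'', hr2.trans (hr1.trans hr), mem_fex_of_mem V
    (down_fand (down_meets _) (down_fall fun _ => down_fimp _ _)) ⟨meets_of_mem hV1, fun x => ?_⟩⟩
  refine mem_fimp.2 fun s hs hsK => ?_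
  obtain ⟨t, ht, U, hU, hx⟩ := mem_fimp.1 (hF2 x) s (hs.trans hr2) hsK
  exact ⟨t, ht, hV2 U hU hx⟩

end Pool.Agent.Q309.MG
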