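import Pool.Agent.Q309.SFT.Defs

/-!
# The Menger, `k`-Menger and `k`-Rothberger games in the ground model and in the extension

We use the forcing language of `Pool.Agent.Helper669.Forcing`: a statement about the extension is
represented by the set of the conditions that force it; a name for a subset of a ground model set
`S` is a map from `S` to sets of conditions, and `meets (A s)` is the statement that `s` belongs
to the set named by `A`. In particular a name for a subset of `X` is a map `X → Set P`, and a name
for a family of subsets of `X` which belong to the ground model is a map `Set X → Set P`.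

In the extension, the space `X` has the topology generated by the open sets of the ground model.
We consider the games in which player I only uses covers that consist of members of this base.
-/

set_option autoImplicit false

namespace Pool.Agent.Q309.MG

open Pool.Agent.Helper669.Forcing Pool.Agent.Q309.SFT

universe u v w

/-! ### The games in the ground model -/

section ground

variable (X : Type v) [TopologicalSpace X]

/-- `𝒰` is an open cover of `X`. -/
def IsCov (𝒰 : Set (Set X)) : Prop := (∀ U ∈ 𝒰, IsOpen U) ∧ ∀ x : X, ∃ U ∈ 𝒰, x ∈ U

/-- `𝒰` is a `k`-cover of `X`: a family of open sets such that every compact set is contained in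
one of them. -/
def IsKCov (𝒰 : Set (Set X)) : Prop :=
  (∀ U ∈ 𝒰, IsOpen U) ∧ ∀ K : Set X, IsCompact K → ∃ U ∈ 𝒰, K ⊆ U

/-- Player II has a winning strategy in the Menger game: in inning `n`, player I plays an open
cover `𝒰 n`, player II answers with a finite subset of `𝒰 n`, and the union of all answers has to
cover `X`. -/
def WinsMenger : Prop :=
  ∃ σ : List (Set (Set X)) → Finset (Set X), ∀ 𝒰 : ℕ → Set (Set X), (∀ n, IsCov X (𝒰 n)) →
    (∀ n, ∀ U ∈ σ (init 𝒰 (n + 1)), U ∈ 𝒰 n) ∧
      ∀ x : X, ∃ n, ∃ U ∈ σ (init 𝒰 (n + 1)), x ∈ U

/-- Player II has a winning strategy in the `k`-Menger game. -/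
def WinsKMenger : Prop :=
  ∃ σ : List (Set (Set X)) → Finset (Set X), ∀ 𝒰 : ℕ → Set (Set X), (∀ n, IsKCov X (𝒰 n)) →
    (∀ n, ∀ U ∈ σ (init 𝒰 (n + 1)), U ∈ 𝒰 n) ∧
      IsKCov X {U | ∃ n, U ∈ σ (init 𝒰 (n + 1))}

/-- Player II has a winning strategy in the `k`-Rothberger game. -/
def WinsKRothberger : Prop :=
  ∃ σ : List (Set (Set X)) → Set X, ∀ 𝒰 : ℕ → Set (Set X), (∀ n, IsKCov X (𝒰 n)) →
    (∀ n, σ (init 𝒰 (n + 1)) ∈ 𝒰 n) ∧ IsKCov X {U | ∃ n, U = σ (init 𝒰 (n + 1))}

end ground

/-! ### The games in the extension -/

section names

variable (P : Type u) [Preorder P]

/-- In the extension, the subsets of `S` named by `A` and `B` are equal. -/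
def SameN {S : Type v} (A B : S → Set P) : Set P :=
  fall fun a : S => fand (fimp (meets (A a)) (meets (B a))) (fimp (meets (B a)) (meets (A a)))

/-- In the extension, the finite sequences of subsets of `S` named by `L` and `L'` are equal. -/
def SameL {S : Type v} (L L' : List (S → Set P)) : Set P :=
  fand (fground (L.length = L'.length))
    (fall fun i : ℕ => SameN P (L.getD i fun _ => ∅) (L'.getD i fun _ => ∅))

/-- In the extension, `σ` is a (partial) function from finite sequences of subsets of `S` to
elements of the ground model set `T`: to every finite sequence `L` of names of subsets of `S` it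
assigns a name `σ L` of a set with at most one element, and equal finite sequences have equal
values. -/
def IsStr {S : Type v} {T : Type w} (σ : List (S → Set P) → T → Set P) : Set P :=
  fand (fall fun L => fall fun L' => fimp (SameL P L L') (SameN P (σ L) (σ L')))
    (fall fun L => fall fun a : T => fall fun b : T =>
      fimp (fand (meets (σ L a)) (meets (σ L b))) (fground (a = b)))

variable (X : Type v) [TopologicalSpace X]

/-- In the extension, all members of the family named by `C` are open sets of the ground
model. -/
def FOpen (C : Set X → Set P) : Set P :=
  fall fun U : Set X => fimp (meets (C U)) (fground (IsOpen U))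

/-- In the extension, the family named by `C` is a cover of `X` by open sets of the ground
model. -/
def FCov (C : Set X → Set P) : Set P :=
  fand (FOpen P X C) (fall fun x : X => fex fun U : Set X => fand (meets (C U)) (fground (x ∈ U)))

/-- In the extension, the set named by `K` is a compact subset of `X` for the topology generated
by the open sets of the ground model: every family of open sets of the ground model that covers
`K` has a finite subfamily that covers `K`. -/
def FCompact (K : X → Set P) : Set P :=
  fall fun C : Set X → Set P => fimp
    (fand (FOpen P X C) (fall fun x : X => fimp (meets (K x))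
      (fex fun U : Set X => fand (meets (C U)) (fground (x ∈ U)))))
    (fex fun F : Finset (Set X) => fand (fall fun U : Set X => fall fun _ : U ∈ F => meets (C U))
      (fall fun x : X => fimp (meets (K x)) (fground (∃ U ∈ F, x ∈ U))))

/-- In the extension, the family named by `C` is a `k`-cover of `X` by open sets of the ground
model: every compact set is contained in a member of the family. -/
def FKCov (C : Set X → Set P) : Set P :=
  fand (FOpen P X C) (fall fun K : X → Set P => fimp (FCompact P X K)
    (fex fun U : Set X => fand (meets (C U))
      (fall fun x : X => fimp (meets (K x)) (fground (x ∈ U)))))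

/-- In the extension, the value `σ L` is a finite subset of the family named by `C`. -/
def FinAns (σ : List ((Set X) → Set P) → Finset (Set X) → Set P) (L : List ((Set X) → Set P))
    (C : Set X → Set P) : Set P :=
  fex fun F : Finset (Set X) => fand (meets (σ L F))
    (fall fun U : Set X => fall fun _ : U ∈ F => meets (C U))

/-- In the extension, player II has a winning strategy in the Menger game on `X` in which player I
plays covers by open sets of the ground model. -/
def FMenger : Set P :=
  fex fun σ : List (Set X → Set P) → Finset (Set X) → Set P => fand (IsStr P σ)
    (fall fun A : ℕ → Set X → Set P => fimp (fall fun n => FCov P X (A n))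
      (fand (fall fun n => FinAns P X σ (init A (n + 1)) (A n))
        (fall fun x : X => fex fun n : ℕ => fex fun F : Finset (Set X) =>
          fand (meets (σ (init A (n + 1)) F)) (fground (∃ U ∈ F, x ∈ U)))))

/-- In the extension, player II has a winning strategy in the `k`-Menger game on `X` in which
player I plays `k`-covers by open sets of the ground model. -/
def FKMenger : Set P :=
  fex fun σ : List (Set X → Set P) → Finset (Set X) → Set P => fand (IsStr P σ)
    (fall fun A : ℕ → Set X → Set P => fimp (fall fun n => FKCov P X (A n))
      (fand (fall fun n => FinAns P X σ (init A (n + 1)) (A n))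
        (FKCov P X fun U => fex fun n : ℕ => fex fun F : Finset (Set X) =>
          fand (meets (σ (init A (n + 1)) F)) (fground (U ∈ F)))))

/-- In the extension, player II has a winning strategy in the `k`-Rothberger game on `X` in which
player I plays `k`-covers by open sets of the ground model. -/
def FKRothberger : Set P :=
  fex fun σ : List (Set X → Set P) → Set X → Set P => fand (IsStr P σ)
    (fall fun A : ℕ → Set X → Set P => fimp (fall fun n => FKCov P X (A n))
      (fand (fall fun n => fex fun U : Set X =>
          fand (meets (σ (init A (n + 1)) U)) (meets (A n U)))
        (FKCov P X fun U => fex fun n : ℕ => meets (σ (init A (n + 1)) U))))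

end names

/-! ### Cohen forcing and the Cantor space -/

/-- Cohen forcing: finite sequences of zeros and ones; longer sequences are stronger. -/
def Coh : Type := List Bool

instance : Preorder Coh where
  le q p := List.IsPrefix (α := Bool) p q
  le_refl p := List.prefix_refl (α := Bool) p
  le_trans _ _ _ h1 h2 := List.IsPrefix.trans h2 h1

/-- The Cantor space. -/
abbrev Cantor : Type := ℕ → Bool

end Pool.Agent.Q309.MG
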