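import Pool.Agent.Q309.MG.Main
import Pool.Agent.Q309.SP.Countable

/-!
# Player II loses the Menger, `k`-Menger and `k`-Rothberger strategies in Cohen extensions
-/

set_option autoImplicit false
set_option linter.unusedSectionVars false

namespace Pool.Agent.Q309.MG

open Pool.Agent.Helper669.Forcing Pool.Agent.Q309.SFT Pool.Agent.Q309.SP

universe u v w

/-! ### The ground model -/

section ground

variable {X : Type v} [TopologicalSpace X] [CompactSpace X]

theorem getLast_init {α : Type w} (A : ℕ → α) (n : ℕ) : (init A (n + 1)).getLast? = some (A n) := by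
  rw [init_succ]
  simp

open Classical in
theorem winsMenger : WinsMenger X := by
  have h : ∀ 𝒰 : Set (Set X), ∃ F : Finset (Set X), IsCov X 𝒰 →
      (∀ U ∈ F, U ∈ 𝒰) ∧ ∀ x : X, ∃ U ∈ F, x ∈ U := by
    intro 𝒰
    by_cases hc : IsCov X 𝒰
    · obtain ⟨t, ht⟩ := isCompact_univ.elim_finite_subcover (fun U : 𝒰 => (U : Set X))
        (fun U => hc.1 U U.2) (by
          intro x _
          obtain ⟨U, hU, hx⟩ := hc.2 x
          exact Set.mem_iUnion.2 ⟨⟨U, hU⟩, hx⟩)
      refine ⟨t.image Subtype.val, fun _ => ⟨?_, ?_⟩⟩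
      · intro U hU
        obtain ⟨V, -, rfl⟩ := Finset.mem_image.1 hU
        exact V.2
      · intro x
        obtain ⟨U, hU, hx⟩ := Set.mem_iUnion₂.1 (ht (Set.mem_univ x))
        exact ⟨U, Finset.mem_image_of_mem _ hU, hx⟩
    · exact ⟨∅, fun h => absurd h hc⟩
  choose F hF using h
  refine ⟨fun L => (L.getLast?.map F).getD ∅, fun 𝒰 h𝒰 => ?_⟩
  simp only [getLast_init, Option.map_some, Option.getD_some]
  exact ⟨fun n => (hF _ (h𝒰 n)).1, fun x => ⟨0, (hF _ (h𝒰 0)).2 x⟩⟩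

theorem univ_mem_of_isKCov {𝒰 : Set (Set X)} (h : IsKCov X 𝒰) : Set.univ ∈ 𝒰 := by
  obtain ⟨U, hU, hK⟩ := h.2 Set.univ isCompact_univ
  rwa [Set.univ_subset_iff.1 hK] at hU

theorem winsKRothberger : WinsKRothberger X := by
  refine ⟨fun _ => Set.univ, fun 𝒰 h𝒰 => ⟨fun n => univ_mem_of_isKCov (h𝒰 n), ?_, ?_⟩⟩
  · rintro U ⟨n, rfl⟩
    exact isOpen_univ
  · intro K _
    exact ⟨Set.univ, ⟨0, rfl⟩, Set.subset_univ _⟩

theorem winsKMenger : WinsKMenger X := by
  refine ⟨fun _ => {Set.univ}, fun 𝒰 h𝒰 => ⟨fun n U hU => ?_, ?_, ?_⟩⟩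
  · rw [Finset.mem_singleton.1 hU]
    exact univ_mem_of_isKCov (h𝒰 n)
  · rintro U ⟨n, hU⟩
    rw [Finset.mem_singleton.1 hU]
    exact isOpen_univ
  · intro K _
    exact ⟨Set.univ, ⟨0, Finset.mem_singleton_self _⟩, Set.subset_univ _⟩

end ground

/-! ### The extension -/

instance : Countable Coh := inferInstanceAs (Countable (List Bool))

instance : Infinite Coh := inferInstanceAs (Infinite (List Bool))

/-- Cohen forcing is strongly proper for stationarily many models. -/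
theorem stronglyProper_coh : StronglyProperStat Coh := stronglyProperStat_of_countable Coh

/-- Locally, the named family is one of the families `cov f`. -/
def IsC (A : Nm) (q₀ : Coh) : Prop := ∀ q ≤ q₀, ∃ r ≤ q, ∃ f : CI, r ∈ SameN Coh A (cov f)

theorem IsC.fopen {A : Nm} {q₀ : Coh} (h : IsC A q₀) : q₀ ∈ FOpen Coh Cantor A := by
  intro U
  refine mem_fimp.2 fun q hq hq' => ?_
  obtain ⟨r, hr, f, hf⟩ := h q hq
  obtain ⟨s, hs, hs'⟩ := mem_fimp.1 (cov_open f r U) r le_rfl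
    ((SameN.iff hf U).1 (down_meets _ _ hq' _ hr))
  exact ⟨s, hs.trans hr, hs'⟩

theorem IsC.fcov {A : Nm} {q₀ : Coh} (h : IsC A q₀) : q₀ ∈ FCov Coh Cantor A := by
  refine ⟨h.fopen, fun x => mem_fex.2 fun q hq => ?_⟩
  obtain ⟨r, hr, f, hf⟩ := h q hq
  obtain ⟨s, hs, U, hU, hx⟩ := mem_fex.1 ((cov_FCov f r).2 x) r le_rfl
  exact ⟨s, hs.trans hr, U, (SameN.iff (down_SameN _ _ _ hf _ hs) U).2 hU, hx⟩

theorem down_fkin (C : Nm) (K : Cantor → Set Coh) : Down (fex fun U : Set Cantor =>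
    fand (meets (C U)) (fall fun x : Cantor => fimp (meets (K x)) (fground (x ∈ U)))) :=
  down_fex _

theorem down_FCompact (K : Cantor → Set Coh) : Down (FCompact Coh Cantor K) :=
  down_fall fun _ => down_fimp _ _

theorem IsC.fkcov {A : Nm} {q₀ : Coh} (h : IsC A q₀) : q₀ ∈ FKCov Coh Cantor A := by
  refine ⟨h.fopen, fun K => mem_fimp.2 fun q hq hK => ?_⟩
  obtain ⟨r, hr, f, hf⟩ := h q hq
  obtain ⟨s, hs, hs'⟩ := mem_fimp.1 ((cov_FKCov f r).2 K) r le_rfl (down_FCompact _ _ hK _ hr)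
  obtain ⟨t, ht, U, hU, hx⟩ := mem_fex.1 hs' s le_rfl
  refine ⟨t, ht.trans (hs.trans hr), mem_fex_of_mem U
    (down_fand (down_meets _) (down_fall fun _ => down_fimp _ _)) ⟨?_, hx⟩⟩
  exact (SameN.iff (down_SameN _ _ _ hf _ (ht.trans hs)) U).2 hU

theorem reg_fex {P : Type u} [Preorder P] {ι : Sort v} (φ : ι → Set P) : Reg (fex φ) := by
  intro p h
  rw [mem_fex]
  intro q hq
  obtain ⟨r, hr, hr'⟩ := h q hq
  obtain ⟨s, hs, i, hi⟩ := mem_fex.1 hr' r le_rfl
  exact ⟨s, hs.trans hr, i, hi⟩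

theorem reg_fand {P : Type u} [Preorder P] {φ ψ : Set P} (h : Reg φ) (h' : Reg ψ) :
    Reg (fand φ ψ) := fun p hp =>
  ⟨h p fun q hq => (hp q hq).imp fun _ hr => ⟨hr.1, hr.2.1⟩,
    h' p fun q hq => (hp q hq).imp fun _ hr => ⟨hr.1, hr.2.2⟩⟩

theorem reg_fall {P : Type u} [Preorder P] {ι : Sort v} {φ : ι → Set P} (h : ∀ i, Reg (φ i)) :
    Reg (fall φ) := fun p hp i => h i p fun q hq => (hp q hq).imp fun _ hr => ⟨hr.1, hr.2 i⟩

theorem reg_fimp {P : Type u} [Preorder P] (φ ψ : Set P) (hφ : Down φ) : Reg (fimp φ ψ) := by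
  intro p hp
  refine mem_fimp.2 fun q hq hq' => ?_
  obtain ⟨r, hr, hr'⟩ := hp q hq
  obtain ⟨s, hs, hs'⟩ := mem_fimp.1 hr' r le_rfl (hφ _ hq' _ hr)
  exact ⟨s, hs.trans hr, hs'⟩

/-- Every condition forces that II has no winning strategy in the Menger game on the Cantor space
of the ground model. -/
theorem not_FMenger (p : Coh) : p ∈ fnot (FMenger Coh Cantor) := by
  intro q _ hq
  obtain ⟨q₀, -, σ, hσ, hwin⟩ := mem_fex.1 hq q le_rfl
  refine core σ q₀ hσ fun A hA => ?_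
  have h1 : q₀ ∈ fall fun n => FCov Coh Cantor (A n) := fun n => IsC.fcov (hA n)
  have hreg : Reg (fand (fall fun n => FinAns Coh Cantor σ (init A (n + 1)) (A n))
      (fall fun x : Cantor => fex fun n : ℕ => fex fun F : Finset (Set Cantor) =>
        fand (meets (σ (init A (n + 1)) F)) (fground (∃ U ∈ F, x ∈ U)))) :=
    reg_fand (reg_fall fun _ => reg_fex _) (reg_fall fun _ => reg_fex _)
  have hdown : Down (fall fun n => FCov Coh Cantor (A n)) :=
    down_fall fun _ => down_fand (down_fall fun _ => down_fimp _ _) (down_fall fun _ => down_fex _)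
  obtain ⟨h2, h3⟩ := mp hreg hdown (hwin A) h1
  refine ⟨h2, fun x r hr => ?_⟩
  obtain ⟨s, hs, n, hs'⟩ := mem_fex.1 (h3 x) r hr
  obtain ⟨t, ht, F, hF, hx⟩ := mem_fex.1 hs' s le_rfl
  exact ⟨t, ht.trans hs, n, F, hF, hx⟩

/-- The singletons are compact. -/
theorem single_compact (x : Cantor) (q : Coh) :
    q ∈ FCompact Coh Cantor (fun y => {_p | y = x}) := by
  intro C
  refine mem_fimp.2 fun r _ hr => ?_
  have h1 : r ∈ meets {_p : Coh | x = x} := meets_of_mem rfl
  obtain ⟨s, hs, hs'⟩ := mem_fimp.1 (hr.2 x) r le_rfl h1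
  obtain ⟨t, ht, U, hU, hx⟩ := mem_fex.1 hs' s le_rfl
  refine ⟨t, ht.trans hs, mem_fex_of_mem {U} (down_fand (down_fall fun _ => down_fall fun _ =>
    down_meets _) (down_fall fun _ => down_fimp _ _)) ⟨fun V hV => ?_, fun y => ?_⟩⟩
  · have hVU : V = U := Finset.mem_singleton.1 hV
    subst hVU
    exact hU
  · refine mem_fimp.2 fun u _ hu => ?_
    obtain ⟨v, hv, w, hw, _⟩ := hu u le_rfl
    have hyx : y = x := hw
    exact ⟨v, hv, U, Finset.mem_singleton_self _, hyx ▸ hx⟩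

/-- A strategy for finite sets which is winning for `k`-covers is impossible. -/
theorem core_k (σ : List Nm → Finset (Set Cantor) → Set Coh) (q₀ : Coh)
    (hσ : q₀ ∈ IsStr Coh σ)
    (hwin : ∀ A : ℕ → Nm, q₀ ∈ fimp (fall fun n => FKCov Coh Cantor (A n))
      (fand (fall fun n => FinAns Coh Cantor σ (init A (n + 1)) (A n))
        (FKCov Coh Cantor fun U => fex fun n : ℕ => fex fun F : Finset (Set Cantor) =>
          fand (meets (σ (init A (n + 1)) F)) (fground (U ∈ F))))) : False := by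
  refine core σ q₀ hσ fun A hA => ?_
  have h1 : q₀ ∈ fall fun n => FKCov Coh Cantor (A n) := fun n => IsC.fkcov (hA n)
  have hreg : Reg (fand (fall fun n => FinAns Coh Cantor σ (init A (n + 1)) (A n))
      (FKCov Coh Cantor fun U => fex fun n : ℕ => fex fun F : Finset (Set Cantor) =>
        fand (meets (σ (init A (n + 1)) F)) (fground (U ∈ F)))) :=
    reg_fand (reg_fall fun _ => reg_fex _) (reg_fand (reg_fall fun _ => reg_fimp _ _
      (down_meets _)) (reg_fall fun _ => reg_fimp _ _ (down_FCompact _)))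
  have hdown : Down (fall fun n => FKCov Coh Cantor (A n)) :=
    down_fall fun _ => down_fand (down_fall fun _ => down_fimp _ _)
      (down_fall fun _ => down_fimp _ _)
  obtain ⟨h2, h3⟩ := mp hreg hdown (hwin A) h1
  refine ⟨h2, fun x r hr => ?_⟩
  obtain ⟨s, hs, hs'⟩ := mem_fimp.1 (h3.2 fun y => {_p | y = x}) r hr (single_compact x r)
  obtain ⟨t, ht, U, hU, hx⟩ := mem_fex.1 hs' s le_rfl
  obtain ⟨t', ht', hx'⟩ := mem_fimp.1 (hx x) t le_rfl (meets_of_mem rfl)
  obtain ⟨u, hu, hu'⟩ := exists_of_meets (down_fex _) (down_meets _ _ hU _ ht')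
  obtain ⟨u1, hu1, n, hu1'⟩ := mem_fex.1 hu' u le_rfl
  obtain ⟨u2, hu2, F, hF, hUF⟩ := mem_fex.1 hu1' u1 le_rfl
  exact ⟨u2, (hu2.trans (hu1.trans (hu.trans ht'))).trans (ht.trans hs), n, F, hF, U, hUF, hx'⟩

/-- Every condition forces that II has no winning strategy in the `k`-Menger game on the Cantor
space of the ground model. -/
theorem not_FKMenger (p : Coh) : p ∈ fnot (FKMenger Coh Cantor) := by
  intro q _ hq
  obtain ⟨q₀, -, σ, hσ, hwin⟩ := mem_fex.1 hq q le_rfl
  exact core_k σ q₀ hσ hwin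

/-- Every condition forces that II has no winning strategy in the `k`-Rothberger game on the
Cantor space of the ground model. -/
theorem not_FKRothberger (p : Coh) : p ∈ fnot (FKRothberger Coh Cantor) := by
  classical
  intro q _ hq
  obtain ⟨q₀, -, σ, hσ, hwin⟩ := mem_fex.1 hq q le_rfl
  let τ : List Nm → Finset (Set Cantor) → Set Coh := fun L F => {p | ∃ U, F = {U} ∧ p ∈ σ L U}
  have hτ : ∀ L U, τ L {U} = σ L U := by
    intro L U
    ext p
    constructor
    · rintro ⟨V, hV, hp⟩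
      rwa [Finset.singleton_injective hV]
    · intro hp
      exact ⟨U, rfl, hp⟩
  have hτ' : ∀ L F p, p ∈ meets (τ L F) → ∃ q ≤ p, ∃ U, F = {U} := by
    intro L F p hp
    obtain ⟨q, hq, s, ⟨U, hU, _⟩, _⟩ := hp p le_rfl
    exact ⟨q, hq, U, hU⟩
  refine core_k τ q₀ ⟨fun L L' => ?_, fun L F F' => ?_⟩ fun A => ?_
  · refine mem_fimp.2 fun r hr hL => ?_
    obtain ⟨s, hs, hs'⟩ := mem_fimp.1 (hσ.1 L L') r hr hL
    refine ⟨s, hs, sameN_of fun t ht F => ?_⟩
    constructor
    · intro h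
      obtain ⟨-, -, U, rfl⟩ := hτ' _ _ _ h
      rw [hτ] at h ⊢
      exact (SameN.iff (down_SameN _ _ _ hs' _ ht) U).1 h
    · intro h
      obtain ⟨-, -, U, rfl⟩ := hτ' _ _ _ h
      rw [hτ] at h ⊢
      exact (SameN.iff (down_SameN _ _ _ hs' _ ht) U).2 h
  · refine mem_fimp.2 fun r hr ⟨h1, h2⟩ => ?_
    obtain ⟨-, -, U, rfl⟩ := hτ' _ _ _ h1
    obtain ⟨-, -, V, rfl⟩ := hτ' _ _ _ h2
    rw [hτ] at h1 h2
    obtain ⟨s, hs, hs'⟩ := mem_fimp.1 (hσ.2 L U V) r hr ⟨h1, h2⟩
    have hUV : U = V := hs'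
    exact ⟨s, hs, congrArg _ hUV⟩
  · refine mem_fimp.2 fun r hr hA => ?_
    obtain ⟨s, hs, h1, h2⟩ := mem_fimp.1 (hwin A) r hr hA
    refine ⟨s, hs, fun n => ?_, ?_⟩
    · refine mem_fex.2 fun t ht => ?_
      obtain ⟨u, hu, U, hU1, hU2⟩ := mem_fex.1 (h1 n) t ht
      refine ⟨u, hu, {U}, ?_, fun V hV => ?_⟩
      · rw [hτ]
        exact hU1
      · have hVU : V = U := Finset.mem_singleton.1 hV
        subst hVU
        exact hU2
    · have hsame : ∀ (U : Set Cantor) (t : Coh),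
          t ∈ meets (fex fun n : ℕ => meets (σ (init A (n + 1)) U)) ↔
          t ∈ meets (fex fun n : ℕ => fex fun F : Finset (Set Cantor) =>
            fand (meets (τ (init A (n + 1)) F)) (fground (U ∈ F))) := by
        intro U t
        constructor
        · intro h
          refine reg_meets _ _ fun u hu => ?_
          obtain ⟨v, hv, hv'⟩ := exists_of_meets (down_fex _) (down_meets _ _ h _ hu)
          obtain ⟨w, hw, n, hn⟩ := mem_fex.1 hv' v le_rfl
          refine ⟨w, hw.trans hv, meets_of_mem (mem_fex_of_mem n (down_fex _)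
            (mem_fex_of_mem {U} (down_fand (down_meets _) (down_fground _)) ⟨?_, ?_⟩))⟩
          · rw [hτ]
            exact hn
          · exact Finset.mem_singleton_self U
        · intro h
          refine reg_meets _ _ fun u hu => ?_
          obtain ⟨v, hv, hv'⟩ := exists_of_meets (down_fex _) (down_meets _ _ h _ hu)
          obtain ⟨w, hw, n, hn⟩ := mem_fex.1 hv' v le_rfl
          obtain ⟨w', hw', F, hF, hUF⟩ := mem_fex.1 hn w le_rfl
          obtain ⟨-, -, V, rfl⟩ := hτ' _ _ _ hF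
          have hUV : U = V := Finset.mem_singleton.1 hUF
          subst hUV
          rw [hτ] at hF
          exact ⟨w', hw'.trans (hw.trans hv), meets_of_mem (mem_fex_of_mem n (down_meets _) hF)⟩
      refine ⟨fun U => ?_, fun K => ?_⟩
      · refine mem_fimp.2 fun t ht ht' => ?_
        exact mem_fimp.1 (h2.1 U) t ht ((hsame U t).2 ht')
      · refine mem_fimp.2 fun t ht hK => ?_
        obtain ⟨u, hu, hu'⟩ := mem_fimp.1 (h2.2 K) t ht hK
        obtain ⟨v, hv, U, hU1, hU2⟩ := mem_fex.1 hu' u le_rfl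
        refine ⟨v, hv.trans hu, mem_fex_of_mem U
          (down_fand (down_meets _) (down_fall fun _ => down_fimp _ _)) ⟨?_, hU2⟩⟩
        exact (hsame U v).1 hU1

end Pool.Agent.Q309.MG
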