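import Pool.Agent.Q309.MG.Core

/-!
# The main argument: defeating the strategies of player II in Cohen extensions
-/

set_option autoImplicit false
set_option linter.unusedSectionVars false

namespace Pool.Agent.Q309.MG

open Pool.Agent.Helper669.Forcing Pool.Agent.Q309.SFT

universe u v w

instance : PolishSpace Cantor where

/-- Names for families of open sets. -/
abbrev Nm : Type := Set Cantor → Set Coh

/-- The list of the names of the covers. -/
def covs (h : List CI) : List Nm := h.map cov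

/-- The good points after the history `h` and below the condition `q`: some extension of `q`
decides an answer of II to a further new real which does not cover a neighbourhood of the
point. -/
def Good (σ : List Nm → Finset (Set Cantor) → Set Coh) (h : List CI) (q : Coh) (t : List Bool)
    (f : CI) (r : Coh) : Prop :=
  r ≤ q ∧ ∃ F, r ∈ meets (σ (covs h ++ [cov f]) F) ∧ ∀ U ∈ F, Disjoint (cyl t) U

theorem down_IsStr {S : Type v} {T : Type w} {P : Type u} [Preorder P]
    (σ : List (S → Set P) → T → Set P) : Down (IsStr P σ) :=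
  down_fand (down_fall fun _ => down_fall fun _ => down_fimp _ _)
    (down_fall fun _ => down_fall fun _ => down_fall fun _ => down_fimp _ _)

theorem exists_play_hist (h : List CI) (f : CI) :
    ∃ A : ℕ → CI, init A (h.length + 1) = h ++ [f] ∧ A h.length = f := by
  refine ⟨fun k => h.getD k f, ?_, ?_⟩
  · rw [init_succ]
    congr 1
    · apply List.ext_getElem
      · rw [length_init]
      · intro i hi1 hi2
        simp only [init, List.getElem_map, List.getElem_range]
        exact List.getD_eq_getElem _ _ hi2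
    · simp
  · simp

theorem core (σ : List Nm → Finset (Set Cantor) → Set Coh) (q₀ : Coh)
    (hσ : q₀ ∈ IsStr Coh σ)
    (hwin : ∀ A : ℕ → Nm, (∀ n, ∀ q ≤ q₀, ∃ r ≤ q, ∃ f : CI, r ∈ SameN Coh (A n) (cov f)) →
      (∀ n, q₀ ∈ FinAns Coh Cantor σ (init A (n + 1)) (A n)) ∧
      ∀ x : Cantor, ∀ q ≤ q₀, ∃ r ≤ q, ∃ n F, r ∈ meets (σ (init A (n + 1)) F) ∧
        ∃ U ∈ F, x ∈ U) : False := by
  classical
  -- legal answers to histories of names for new reals
  have hleg : ∀ (h : List CI) (f : CI), ∀ q ≤ q₀, ∃ r ≤ q, ∃ F,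
      r ∈ meets (σ (covs h ++ [cov f]) F) ∧ ∀ U ∈ F, r ∈ cov f U := by
    intro h f q hq
    obtain ⟨B, hB1, hB2⟩ := exists_play_hist h f
    have h1 := (hwin (fun n => cov (B n)) fun n q _ => ⟨q, le_rfl, B n, sameN_refl _ _⟩).1 h.length
    have h2 : init (fun n => cov (B n)) (h.length + 1) = covs h ++ [cov f] := by
      have h3 : init (fun n => cov (B n)) (h.length + 1) = (init B (h.length + 1)).map cov := by
        simp [init]
      rw [h3, hB1, List.map_append]
      rfl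
    rw [h2] at h1
    obtain ⟨r, hr, F, hF1, hF2⟩ := mem_fex.1 h1 q hq
    have hF2' : ∀ U ∈ F, r ∈ meets (cov f U) := by
      intro U hU
      have h3 : r ∈ meets (cov (B h.length) U) := hF2 U hU
      rwa [hB2] at h3
    obtain ⟨r', hr', hF3⟩ := cov_finite f F r hF2'
    exact ⟨r', hr'.trans hr, F, down_meets _ _ hF1 _ hr', hF3⟩
  -- the bad points form a countable set
  have hbad : ∀ (h : List CI), ∀ q ≤ q₀,
      {x : Cantor | ¬ ∃ t f r, x ∈ cyl t ∧ Good σ h q t f r}.Countable := by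
    intro h q hq
    by_contra hunc
    have hclosed : IsClosed {x : Cantor | ¬ ∃ t f r, x ∈ cyl t ∧ Good σ h q t f r} := by
      rw [← isOpen_compl_iff, isOpen_iff_forall_mem_open]
      intro x hx
      simp only [Set.mem_compl_iff, Set.mem_ofPred_eq, not_not] at hx
      obtain ⟨t, f, r, hxt, hg⟩ := hx
      refine ⟨cyl t, fun y hy => ?_, (isClopen_cyl t).isOpen, hxt⟩
      simp only [Set.mem_compl_iff, Set.mem_ofPred_eq, not_not]
      exact ⟨t, f, r, hy, hg⟩
    obtain ⟨f, hf1, hf2, hf3⟩ := hclosed.exists_nat_bool_injection_of_not_countable hunc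
    obtain ⟨r, hr, F, hF1, hF2⟩ := hleg h ⟨f, hf2, hf3⟩ q hq
    obtain ⟨V, ⟨t, rfl, ht⟩, hV⟩ := cov_bound ⟨f, hf2, hf3⟩ F r hF2
    obtain ⟨y, hy⟩ := cyl_nonempty r
    have h1 := hf1 ⟨y, rfl⟩
    refine h1 ⟨t, ⟨f, hf2, hf3⟩, r, ht ⟨y, hy, rfl⟩, hr, F, hF1, fun U hU => ?_⟩
    exact Set.disjoint_of_subset_right (hV U hU) disjoint_compl_right
  -- witnesses
  have hw : ∀ (h : List CI) (q : Coh) (t : List Bool), ∃ c : CI × Coh,
      (∃ f r, Good σ h q t f r) → Good σ h q t c.1 c.2 := by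
    intro h q t
    by_cases hc : ∃ f r, Good σ h q t f r
    · obtain ⟨f, r, hfr⟩ := hc
      exact ⟨(f, r), fun _ => hfr⟩
    · exact ⟨(⟨id, continuous_id, Function.injective_id⟩, q), fun h' => absurd h' hc⟩
  choose w hw using hw
  -- the countable family of histories
  let hist : List (Coh × List Bool) → List CI :=
    fun e => e.foldl (fun h a => h ++ [(w h a.1 a.2).1]) []
  have hhist : ∀ e a, hist (e ++ [a]) = hist e ++ [(w (hist e) a.1 a.2).1] := by
    intro e a
    simp [hist, List.foldl_append]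
  have : Countable Coh := inferInstanceAs (Countable (List Bool))
  obtain ⟨x, hx⟩ : ∃ x : Cantor, ∀ e, ∀ q ≤ q₀, ∃ t f r, x ∈ cyl t ∧ Good σ (hist e) q t f r := by
    have h1 : (⋃ e : List (Coh × List Bool), ⋃ q ∈ {q : Coh | q ≤ q₀},
        {x : Cantor | ¬ ∃ t f r, x ∈ cyl t ∧ Good σ (hist e) q t f r}).Countable :=
      Set.countable_iUnion fun e => (Set.to_countable _).biUnion fun q hq => hbad _ q hq
    have h2 : ¬ (Set.univ : Set Cantor).Countable := by
      rw [Set.countable_univ_iff, ← Cardinal.mk_le_aleph0_iff]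
      have : Cardinal.mk Cantor = Cardinal.continuum := by simp [Cantor]
      rw [this]
      exact not_le.2 Cardinal.aleph0_lt_continuum
    obtain ⟨x, -, hx⟩ := Set.not_subset.1 fun h => h2 (h1.mono h)
    refine ⟨x, fun e q hq => ?_⟩
    by_contra hcon
    exact hx (Set.mem_iUnion.2 ⟨e, Set.mem_biUnion (show q ∈ {q : Coh | q ≤ q₀} from hq) hcon⟩)
  -- the invariant and the step
  let Q : List Nm → Prop := fun L => ∀ q ≤ q₀, ∃ r ≤ q, ∃ e, r ∈ SameL Coh L (covs (hist e))
  let ψ : List Nm → Set Coh := fun L =>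
    fall fun F : Finset (Set Cantor) => fimp (meets (σ L F)) (fground (¬ ∃ U ∈ F, x ∈ U))
  have hψdown : ∀ L, Down (ψ L) := fun L => down_fall fun _ => down_fimp _ _
  have hσ' : ∀ {p : Coh}, p ≤ q₀ → ∀ {L L' : List Nm}, p ∈ SameL Coh L L' →
      p ∈ SameN Coh (σ L) (σ L') := by
    intro p hp L L' hL
    have h1 := (down_IsStr σ q₀ hσ p hp).1 L L'
    refine fun a => ⟨?_, ?_⟩
    · refine mem_fimp.2 fun q hq hq' => ?_
      obtain ⟨r, hr, hr'⟩ := mem_fimp.1 h1 q hq (down_SameL _ _ _ hL _ hq)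
      exact ⟨r, hr, (SameN.iff hr' a).1 (down_meets _ _ hq' _ hr)⟩
    · refine mem_fimp.2 fun q hq hq' => ?_
      obtain ⟨r, hr, hr'⟩ := mem_fimp.1 h1 q hq (down_SameL _ _ _ hL _ hq)
      exact ⟨r, hr, (SameN.iff hr' a).2 (down_meets _ _ hq' _ hr)⟩
  have hstep : ∀ L, Q L → ∃ D : Nm, Q (L ++ [D]) ∧ q₀ ∈ ψ (L ++ [D]) ∧
      ∀ q ≤ q₀, ∃ r ≤ q, ∃ f : CI, r ∈ SameN Coh D (cov f) := by
    intro L hL
    let φ : Nm → Set Coh := fun C => {r | r ≤ q₀ ∧ ∃ (e : List (Coh × List Bool))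
      (a : Coh × List Bool), r ∈ SameL Coh L (covs (hist e)) ∧
      C = cov (w (hist e) a.1 a.2).1 ∧ r ∈ ψ (covs (hist (e ++ [a])))}
    have hφ : ∀ C, Down (φ C) := by
      rintro C r ⟨h0, e, a, h1, h2, h3⟩ s hs
      exact ⟨hs.trans h0, e, a, down_SameL _ _ _ h1 _ hs, h2, hψdown _ _ h3 _ hs⟩
    have hdense : ∀ q ≤ q₀, ∃ r ≤ q, ∃ C, r ∈ φ C := by
      intro q hq
      obtain ⟨r, hr, e, he⟩ := hL q hq
      obtain ⟨t, f, s, hxt, hg⟩ := hx e r (hr.trans hq)
      have hg' := hw (hist e) r t ⟨f, s, hg⟩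
      obtain ⟨hg1, F, hg2, hg3⟩ := hg'
      refine ⟨_, hg1.trans hr, _, (hg1.trans hr).trans hq, e, (r, t), ?_, rfl, ?_⟩
      · exact down_SameL _ _ _ he _ hg1
      · intro F'
        refine mem_fimp.2 fun u hu hu' => ?_
        have e1 : covs (hist (e ++ [(r, t)])) =
            covs (hist e) ++ [cov (w (hist e) r t).1] := by
          rw [hhist]
          simp [covs]
        rw [e1] at hu'
        have h2 := (down_IsStr σ q₀ hσ u (hu.trans ((hg1.trans hr).trans hq))).2
          (covs (hist e) ++ [cov (w (hist e) r t).1]) F' F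
        obtain ⟨u', hu1, hu2⟩ := mem_fimp.1 h2 u le_rfl ⟨hu', down_meets _ _ hg2 _ hu⟩
        refine ⟨u', hu1, ?_⟩
        have hFF : F' = F := hu2
        rw [hFF]
        rintro ⟨U, hU, hxU⟩
        exact Set.disjoint_left.1 (hg3 U hU) hxt hxU
    obtain ⟨D, hD⟩ := mixing φ hφ q₀ hdense
    have key : ∀ q ≤ q₀, ∃ r ≤ q, ∃ e, r ∈ SameL Coh (L ++ [D]) (covs (hist e)) ∧
        r ∈ ψ (L ++ [D]) ∧ ∃ f : CI, r ∈ SameN Coh D (cov f) := by
      intro q hq
      obtain ⟨r, hr, C, ⟨h0, e, a, h1, h2, h3⟩, h4⟩ := hD q hq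
      subst h2
      have e1 : covs (hist (e ++ [a])) = covs (hist e) ++ [cov (w (hist e) a.1 a.2).1] := by
        rw [hhist]
        simp [covs]
      have h5 : r ∈ SameL Coh (L ++ [D]) (covs (hist (e ++ [a]))) := by
        rw [e1]
        exact sameL_append h1 h4
      refine ⟨r, hr, e ++ [a], h5, fun F => ?_, _, h4⟩
      have h6 := hσ' h0 h5
      refine mem_fimp.2 fun u hu hu' => ?_
      exact mem_fimp.1 (h3 F) u hu ((SameN.iff (down_SameN _ _ _ h6 _ hu) F).1 hu')
    refine ⟨D, fun q hq => ?_, fun F => ?_, fun q hq => ?_⟩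
    · obtain ⟨r, hr, e, he, -⟩ := key q hq
      exact ⟨r, hr, e, he⟩
    · refine mem_fimp.2 fun u hu hu' => ?_
      obtain ⟨r, hr, e, -, h1, -⟩ := key u hu
      obtain ⟨r', hr', h2⟩ := mem_fimp.1 (h1 F) r le_rfl (down_meets _ _ hu' _ hr)
      exact ⟨r', hr'.trans hr, h2⟩
    · obtain ⟨r, hr, e, -, -, h1⟩ := key q hq
      exact ⟨r, hr, h1⟩
  -- the play
  choose D hD1 hD2 hD3 using hstep
  let st : ℕ → {L : List Nm // Q L} := fun n => Nat.rec
    ⟨[], fun q hq => ⟨q, le_rfl, [], sameL_nil q⟩⟩ (fun _ L => ⟨L.1 ++ [D L.1 L.2], hD1 _ _⟩) n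
  let A : ℕ → Nm := fun n => D (st n).1 (st n).2
  have hst : ∀ n, (st (n + 1)).1 = (st n).1 ++ [A n] := fun n => rfl
  have hinit : ∀ n, init A n = (st n).1 := by
    intro n
    induction n with
    | zero => rfl
    | succ n ih => rw [init_succ, hst, ih]
  have h1 := (hwin A fun n => hD3 _ _).2 x q₀ le_rfl
  obtain ⟨r, hr, n, F, hF, hU⟩ := h1
  rw [hinit, hst] at hF
  obtain ⟨s, -, hs⟩ := mem_fimp.1 (hD2 (st n).1 (st n).2 F) r hr hF
  exact hs hU

end Pool.Agent.Q309.MG
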